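import Pool.Agent.Q48.RD.Consec

/-!
# Isolated almost prime quadruplets between consecutive fifth powers

Let `g ≥ 2` be a base and `K` a large number of digits. For every `i < K` let `A i` be an arbitrary set of digits, such that the number
`|A 0| ⋯ |A (K - 1)|` of the integers `t < g ^ K` whose `i`-th digit belongs to `A i` for all `i < K` is at least `exp (- c K) g ^ K`
(`Rich`). Let `n` be any natural number with `(n + 1)⁵ ≤ g ^ (E K)`, let `L` be fixed, and `m₀ ≥ L + 1`,
`n⁵ + m₀ + g ^ K + 8 + L ≤ (n + 1)⁵`. We consider the integers `p = n⁵ + m₀ + t` with these `t`: they form a set with only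
`y ^ (1 - δ)` elements in an interval of length `y = g ^ K`, which may be an arbitrarily small power of `n`, at an arbitrary place between
the fifth powers.

At least `κ |A 0| ⋯ |A (K - 1)| / K⁴` of the quadruplets `p, p + 2, p + 6, p + 8` consist of integers with at most `r` prime factors, all
of them larger than `g ^ (K / r)`, while all other integers at a distance of at most `L` from `p` have a prime factor
`≤ g ^ (K / r)`, unless there is an obvious obstruction (no digit `d` in `A 0` such that the four members for `t = d` are prime to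
`g`), and at most `C |A 0| ⋯ |A (K - 1)| / K⁴` of them consist of primes.

So in the sequence of the integers without small prime factors there are, between ANY two large consecutive fifth powers, many groups of
exactly four consecutive elements which form a quadruplet, with gaps longer than `L - 8` on both sides.
-/

set_option autoImplicit false

namespace Pool.Agent.Results.MP_c03ca8_nt.IsolatedQuadruplets

open Filter Finset
open Pool.Agent.Q315.RD Pool.Agent.Q48.RD

/-- `p, p + 2, p + 6, p + 8` lie between `n⁵` and `(n + 1)⁵` and have at most `r` prime factors, all larger than `y ^ (1 / r)`, and all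
other integers at a distance of at most `L` from `p` have a prime factor `≤ y ^ (1 / r)`. -/
def IsolatedQuadruplet (L y r n p : ℕ) : Prop :=
  (n ^ 5 < p ∧ p + 8 < (n + 1) ^ 5) ∧
  (AlmostPrime y r p ∧ AlmostPrime y r (p + 2) ∧ AlmostPrime y r (p + 6) ∧ AlmostPrime y r (p + 8)) ∧
    ∀ m : ℕ, p ≤ m + L → m ≤ p + L → m ≠ p → m ≠ p + 2 → m ≠ p + 6 → m ≠ p + 8 → ∃ q : ℕ, q.Prime ∧ q ∣ m ∧ q ^ r ≤ y

lemma adm : ∀ p : ℕ, p.Prime → ∃ n : ℕ, ∀ j, ¬ p ∣ n + (![0, 2, 6, 8] : Fin 4 → ℕ) j := by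
  intro p hp
  rcases Nat.lt_or_ge 4 p with h | h
  · obtain ⟨n, hn⟩ := adm_big (fun _ : Fin 4 => 1) (![0, 2, 6, 8] : Fin 4 → ℕ) hp h (fun _ h1 => hp.one_lt.ne' (Nat.dvd_one.1 h1))
    exact ⟨n, fun j hj => hn j (by rw [one_mul]; exact hj)⟩
  · have h2 := hp.two_le
    interval_cases p
    · exact ⟨1, by decide⟩
    · exact ⟨2, by decide⟩
    · exact absurd hp (by norm_num)

/-- **Isolated almost prime quadruplets between any two large consecutive fifth powers.** -/
theorem result (L E : ℕ) :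
    ∃ c : ℝ, 0 < c ∧ ∃ r₀ : ℕ, 2 ≤ r₀ ∧ ∀ r : ℕ, r₀ ≤ r → ∀ g : ℕ, 2 ≤ g → ∃ κ C : ℝ, 0 < κ ∧ 0 < C ∧
      ∀ᶠ K : ℕ in atTop, ∀ n m₀ : ℕ, (n + 1) ^ 5 ≤ g ^ (E * K) → L + 1 ≤ m₀ → n ^ 5 + m₀ + g ^ K + 8 + L ≤ (n + 1) ^ 5 →
        ∀ A : ℕ → Finset ℕ, Rich c g K A →
        ((∃ d ∈ A 0, ∀ j, (n ^ 5 + m₀ + d + (![0, 2, 6, 8] : Fin 4 → ℕ) j).Coprime g) →
          κ * choices K A / (K : ℝ) ^ 4 ≤ count g K A fun t => IsolatedQuadruplet L (g ^ K) r n (n ^ 5 + m₀ + t)) ∧
        (count g K A (fun t => ∀ j, (n ^ 5 + m₀ + t + (![0, 2, 6, 8] : Fin 4 → ℕ) j).Prime) : ℝ) ≤ C * choices K A / (K : ℝ) ^ 4 := by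
  classical
  obtain ⟨c, hc, r₀, hr₀, H⟩ := consecPattern (![0, 2, 6, 8] : Fin 4 → ℕ) (by decide) adm L E
  refine ⟨c, hc, r₀, hr₀, fun r hr g hg => ?_⟩
  obtain ⟨κ, C, hκ, hC, H⟩ := H r hr g hg
  refine ⟨κ, C, hκ, hC, ?_⟩
  filter_upwards [H] with K HK
  intro n m₀ hn hm hle A hA
  obtain ⟨h1, h2⟩ := HK (n ^ 5 + m₀) (by omega) (by omega) A hA
  refine ⟨fun hd => (h1 hd).trans ?_, h2⟩
  unfold count
  refine Nat.cast_le.2 (card_le_card fun t ht => ?_)
  simp only [mem_filter, mem_range] at ht ⊢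
  obtain ⟨ht1, ht2, ht3⟩ := ht
  refine ⟨ht1, ht2, ⟨by omega, by omega⟩, ⟨?_, ?_, ?_, ?_⟩, ?_⟩
  · exact ht3.1 0
  · exact ht3.1 1
  · exact ht3.1 2
  · exact ht3.1 3
  · intro m h3 h4 h5 h6 h7 h8
    refine ht3.2 m h3 h4 fun j => ?_
    fin_cases j
    · exact h5
    · exact h6
    · exact h7
    · exact h8

end Pool.Agent.Results.MP_c03ca8_nt.IsolatedQuadruplets
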