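import Pool.Agent.Q48.RD.TupW

/-!
# Almost prime quadruplets in short intervals between consecutive fifth powers

Let `g ≥ 2` be a base and `K` a large number of digits. For every `i < K` let `A i` be an arbitrary set of digits, such that the number
`|A 0| ⋯ |A (K - 1)|` of the integers `t < g ^ K` whose `i`-th digit belongs to `A i` for all `i < K` is at least `exp (- c K) g ^ K`
(`Rich`). Let `n` be any natural number with `(n + 1)⁵ ≤ g ^ (E K)`, and `n⁵ + m₀ + g ^ K + T + 8 ≤ (n + 1)⁵` with `T ≥ g`. We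
consider the points `x = n⁵ + m₀ + t` with these `t`: they form a set with only `y ^ (1 - δ)` elements in an interval of length
`y = g ^ K`, which may be an arbitrarily small power of `n`, at an arbitrary place between the fifth powers.

For at least the proportion `κ min (1, T / K⁴)` of these `x` the interval `(x, x + T]` contains at least `κ max (1, T / K⁴)` integers `p`
such that `p, p + 2, p + 6, p + 8` all lie between `n⁵` and `(n + 1)⁵` and have at most `r` prime factors, all of them larger than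
`g ^ (K / r)`.

So for all large `n` there are such quadruplets between `n⁵` and `(n + 1)⁵`, and they are spread everywhere: already intervals of length
`C (log n)⁴` at a positive proportion of the points of arbitrary sparse sets of this kind contain one.
-/

set_option autoImplicit false

namespace Pool.Agent.Results.MP_c03ca8_nt.QuadrupletsInShortIntervals

open Filter Finset
open Pool.Agent.Q315.RD Pool.Agent.Q48.RD

/-- `p, p + 2, p + 6, p + 8` lie strictly between `n⁵` and `(n + 1)⁵` and have at most `r` prime factors, all larger than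
`y ^ (1 / r)`. -/
def AlmostPrimeQuadruplet (y r n p : ℕ) : Prop :=
  n ^ 5 < p ∧ p + 8 < (n + 1) ^ 5 ∧
    AlmostPrime y r p ∧ AlmostPrime y r (p + 2) ∧ AlmostPrime y r (p + 6) ∧ AlmostPrime y r (p + 8)

open Classical in
/-- The number of the `p` with `x < p ≤ x + T` for which `p, p + 2, p + 6, p + 8` is such a quadruplet. -/
noncomputable def quadruplets (y r n x T : ℕ) : ℕ := ((Ioc x (x + T)).filter fun p => AlmostPrimeQuadruplet y r n p).card

lemma adm : AdmZ (fun _ : Fin 4 => 1) (fun i => ((![0, 2, 6, 8] : Fin 4 → ℕ) i : ℤ)) := by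
  intro p hp
  rcases Nat.lt_or_ge 4 p with h | h
  · refine adm_bigZ _ _ hp h fun j h1 => ?_
    exact hp.one_lt.ne' (by exact_mod_cast Int.eq_one_of_dvd_one (by positivity) h1)
  · have h2 := hp.two_le
    have h4 : p ≠ 4 := by rintro rfl; exact absurd hp (by norm_num)
    have h5 : p = 2 ∨ p = 3 := by omega
    rcases h5 with rfl | rfl
    · refine ⟨1, fun j => ?_⟩
      fin_cases j <;> norm_num
    · refine ⟨2, fun j => ?_⟩
      fin_cases j <;> norm_num

/-- **Almost prime quadruplets in short intervals between consecutive fifth powers.** -/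
theorem result (E : ℕ) :
    ∃ c : ℝ, 0 < c ∧ ∃ r₀ : ℕ, 2 ≤ r₀ ∧ ∀ r : ℕ, r₀ ≤ r → ∀ g : ℕ, 2 ≤ g → ∃ κ : ℝ, 0 < κ ∧
      ∀ᶠ K : ℕ in atTop, ∀ n m₀ T : ℕ, (n + 1) ^ 5 ≤ g ^ (E * K) → g ≤ T → n ^ 5 + m₀ + g ^ K + T + 8 ≤ (n + 1) ^ 5 →
        ∀ A : ℕ → Finset ℕ, Rich c g K A →
          κ * min 1 ((T : ℝ) / (K : ℝ) ^ 4) * choices K A ≤
            count g K A (fun t => κ * max 1 ((T : ℝ) / (K : ℝ) ^ 4) ≤ quadruplets (g ^ K) r n (n ^ 5 + m₀ + t) T) := by
  classical
  obtain ⟨c, hc, r₀, hr₀, H⟩ := tupleWindow (k := 4) ![0, 2, 6, 8] (by decide) adm E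
  refine ⟨c, hc, r₀, hr₀, fun r hr g hg => ?_⟩
  obtain ⟨κ, hκ, H⟩ := H r hr g hg
  refine ⟨κ, hκ, ?_⟩
  filter_upwards [H] with K HK
  intro n m₀ T hn hgT hsum A hA
  refine (HK (n ^ 5 + m₀) T (by omega) hgT (by omega) A hA).trans (Nat.cast_le.2 (count_mono fun t ht hP => ?_))
  refine hP.trans (Nat.cast_le.2 ?_)
  unfold tuplesIn quadruplets
  apply card_le_card_of_injOn (fun h => n ^ 5 + m₀ + t + h)
  · intro h hh
    have h1 := mem_filter.1 (mem_coe.1 hh)
    have h2 := mem_Icc.1 h1.1
    rw [mem_coe]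
    apply mem_filter.2
    refine ⟨mem_Ioc.2 ⟨by dsimp only; omega, by dsimp only; omega⟩, ?_, ?_, ?_⟩
    · change n ^ 5 < n ^ 5 + m₀ + t + h
      omega
    · change n ^ 5 + m₀ + t + h + 8 < (n + 1) ^ 5
      omega
    · have h3 := h1.2
      exact ⟨h3 0, h3 1, h3 2, h3 3⟩
  · intro h _ h' _ h1
    simpa using h1

end Pool.Agent.Results.MP_c03ca8_nt.QuadrupletsInShortIntervals
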