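import Pool.Agent.Q48.RD.Gen

/-!
# Almost prime quadruplets at a given distance above the fifth powers

Let `g ≥ 2` be a base and `K` a large number of digits. For every `i < K` let `A i` be an arbitrary set of digits, such that the number
`|A 0| ⋯ |A (K - 1)|` of the integers `t < g ^ K` whose `i`-th digit belongs to `A i` for all `i < K` is at least `exp (- c K) g ^ K`
(`Rich`). Let `N ≤ g ^ (E K)`, and let the distance `h` be arbitrary with `1 ≤ h` and `h + 8 ≤ 5 N⁴`. We consider the numbers `n = N + t`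
with these `t`: they form a set with only `y ^ (1 - δ)` elements in an interval of length `y = g ^ K`, which may be an arbitrarily
small power of `n`.

The quadruplet `n⁵ + h, n⁵ + h + 2, n⁵ + h + 6, n⁵ + h + 8` lies between `n⁵` and `(n + 1)⁵` for all these `n`, and it has no fixed prime
divisor. At least `κ V (h) |A 0| ⋯ |A (K - 1)|` of the `n` are such that its four members have at most `r` prime factors, all of them
larger than `g ^ (K / r)`, unless there is an obvious obstruction (no digit `d` in `A 0` such that the four members for `N + d` are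
prime to `g`), and at most `C V (h) |A 0| ⋯ |A (K - 1)|` of the quadruplets consist of primes. Here `V (h)` is the expected frequency,
the product of `1 - ν (p) / p` over the primes `p ≤ g ^ K`. The constants do not depend on `h`.
-/

set_option autoImplicit false

namespace Pool.Agent.Results.MP_c03ca8_nt.SameDistanceFromFifthPowers

open Filter Finset Polynomial
open Pool.Agent.Q315.RD Pool.Agent.Q48.RD

/-- The member `n⁵ + h + s` of the quadruplet, `s` in `{0, 2, 6, 8}`. -/
def member (h : ℕ) (j : Fin 4) (n : ℕ) : ℕ := n ^ 5 + h + ![0, 2, 6, 8] j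

/-- The product of `1 - ν (p) / p` over the primes `p ≤ y`, where `ν (p)` is the number of the `n < p` such that `p` divides one of the
four numbers `n⁵ + h, n⁵ + h + 2, n⁵ + h + 6, n⁵ + h + 8`. -/
noncomputable def V (h y : ℕ) : ℝ := density (fun j n => member h j n) y

lemma small_primes : ∀ p : ℕ, p.Prime → p < 23 → ∀ x : ZMod p, ∃ t : ZMod p, ∀ j : Fin 4,
    t ^ 5 + x + ((![0, 2, 6, 8] : Fin 4 → ℕ) j : ZMod p) ≠ 0 := by
  intro p hp hlt
  have h2 := hp.two_le
  interval_cases p <;> decide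

lemma adm (h : ℕ) (p : ℕ) (hp : p.Prime) : ∃ t : ℤ, ∀ j : Fin 4, ¬ (p : ℤ) ∣ t ^ 5 + h + ((![0, 2, 6, 8] : Fin 4 → ℕ) j : ℤ) := by
  have := Fact.mk hp
  rcases Nat.lt_or_ge p 23 with hlt | hge
  · obtain ⟨t, ht⟩ := small_primes p hp hlt (h : ZMod p)
    refine ⟨(t.val : ℤ), fun j hj => ht j ?_⟩
    rw [← ZMod.intCast_zmod_eq_zero_iff_dvd] at hj
    push_cast at hj
    rw [ZMod.natCast_val, ZMod.cast_id] at hj
    exact hj
  · have hm : ∀ j : Fin 4, (X ^ 5 + C ((h : ℤ) + ((![0, 2, 6, 8] : Fin 4 → ℕ) j : ℤ))).Monic := fun j => monic_X_pow_add_C _ (by norm_num)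
    have hd : ∀ j : Fin 4, (X ^ 5 + C ((h : ℤ) + ((![0, 2, 6, 8] : Fin 4 → ℕ) j : ℤ))).natDegree = 5 := fun j => natDegree_X_pow_add_C
    obtain ⟨n, hn⟩ := Pool.Agent.Y816.PD.adm_deg hp (∏ j : Fin 4, (X ^ 5 + C ((h : ℤ) + ((![0, 2, 6, 8] : Fin 4 → ℕ) j : ℤ))))
      (by
        rw [(monic_prod_of_monic _ _ fun j _ => hm j).leadingCoeff]
        intro h1
        exact hp.one_lt.ne' (by exact_mod_cast Int.eq_one_of_dvd_one (by positivity) h1))
      (by
        rw [natDegree_prod_of_monic _ _ fun j _ => hm j]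
        simp only [hd, sum_const, card_univ, Fintype.card_fin, smul_eq_mul]
        omega)
    refine ⟨n, fun j hj => hn ?_⟩
    rw [eval_prod]
    refine dvd_trans ?_ (dvd_prod_of_mem _ (mem_univ j))
    rw [eval_add, eval_pow, eval_X, eval_C, ← add_assoc]
    exact hj

/-- **Almost prime quadruplets at a given distance above the fifth powers.** -/
theorem result (E : ℕ) :
    ∃ c : ℝ, 0 < c ∧ ∃ r₀ : ℕ, 2 ≤ r₀ ∧ ∀ r : ℕ, r₀ ≤ r → ∀ g : ℕ, 2 ≤ g → ∃ κ C : ℝ, 0 < κ ∧ 0 < C ∧
      ∀ᶠ K : ℕ in atTop, ∀ N h : ℕ, N ≤ g ^ (E * K) → 1 ≤ h → h + 8 ≤ 5 * N ^ 4 → ∀ A : ℕ → Finset ℕ, Rich c g K A →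
        (∀ t : ℕ, (N + t) ^ 5 < member h 0 (N + t) ∧ member h 3 (N + t) < (N + t + 1) ^ 5) ∧
        ((∃ d ∈ A 0, ∀ j, (member h j (N + d)).Coprime g) →
          κ * V h (g ^ K) * choices K A ≤ count g K A (fun t => ∀ j, AlmostPrime (g ^ K) r (member h j (N + t))) ∧
          κ * choices K A / (K : ℝ) ^ 20 ≤ count g K A (fun t => ∀ j, AlmostPrime (g ^ K) r (member h j (N + t)))) ∧
        (count g K A (fun t => ∀ j, (member h j (N + t)).Prime) : ℝ) ≤ C * V h (g ^ K) * choices K A := by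
  classical
  obtain ⟨c, hc, r₀, hr₀, H⟩ := famP 4 5 20 (5 * (E + 2) + 1)
  refine ⟨c, hc, r₀, hr₀, fun r hr g hg => ?_⟩
  obtain ⟨κ, C', hκ, hC, H⟩ := H r hr g hg
  refine ⟨κ, C', hκ, hC, ?_⟩
  filter_upwards [H, eventually_ge_atTop 3] with K HK hK1
  intro N h hN hh1 hh2 A hA
  have hg1 : 1 ≤ g := by omega
  have hbetween : ∀ t : ℕ, (N + t) ^ 5 < member h 0 (N + t) ∧ member h 3 (N + t) < (N + t + 1) ^ 5 := by
    intro t
    constructor
    · change (N + t) ^ 5 < (N + t) ^ 5 + h + 0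
      omega
    · change (N + t) ^ 5 + h + 8 < (N + t + 1) ^ 5
      have h1 : 5 * N ^ 4 ≤ 5 * (N + t) ^ 4 := Nat.mul_le_mul_left 5 (Nat.pow_le_pow_left (by omega) 4)
      have h2 : (N + t + 1) ^ 5 = (N + t) ^ 5 + 5 * (N + t) ^ 4 + 10 * (N + t) ^ 3 + 10 * (N + t) ^ 2 + 5 * (N + t) + 1 := by ring
      rw [h2]
      have h3 : 0 ≤ 10 * (N + t) ^ 3 := Nat.zero_le _
      have h4 : 0 ≤ 10 * (N + t) ^ 2 := Nat.zero_le _
      omega
  refine ⟨hbetween, ?_⟩
  have h1 := HK (fun j => X ^ 5 + Polynomial.C ((h : ℤ) + ((![0, 2, 6, 8] : Fin 4 → ℕ) j : ℤ)))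
    (fun j => (natDegree_X_pow_add_C).le)
    (by simp only [natDegree_X_pow_add_C, sum_const, card_univ, Fintype.card_fin, smul_eq_mul]; norm_num)
    (fun p hp => by
      obtain ⟨t, ht⟩ := adm h p hp
      refine ⟨t, fun j hj => ht j ?_⟩
      rw [eval_add, eval_pow, eval_X, eval_C, ← add_assoc] at hj
      exact hj) N (fun j t => member h j (N + t))
    (fun t _ j => by
      rw [eval_add, eval_pow, eval_X, eval_C]
      unfold member
      push_cast
      ring)
    (fun t _ j => by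
      unfold member
      have : N + t ≤ (N + t) ^ 5 := Nat.le_self_pow (by norm_num) _
      omega)
    (fun t ht j => by
      have h2 : member h j (N + t) ≤ (N + t + 1) ^ 5 := by
        have h3 := (hbetween t).2
        have h4 : member h j (N + t) ≤ member h 3 (N + t) := by
          unfold member
          have : (![0, 2, 6, 8] : Fin 4 → ℕ) j ≤ 8 := by fin_cases j <;> simp
          exact Nat.add_le_add_left this _
        omega
      have h3 : N + t + 1 ≤ g ^ ((E + 2) * K) := by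
        have e1 : N ≤ g ^ ((E + 1) * K) := hN.trans (Nat.pow_le_pow_right hg1 (by nlinarith))
        have e2 : g ^ K ≤ g ^ ((E + 1) * K) := Nat.pow_le_pow_right hg1 (by nlinarith)
        have e3 : g ^ ((E + 2) * K) = g ^ K * g ^ ((E + 1) * K) := by rw [← pow_add]; congr 1; ring
        have e4 : 2 ≤ g ^ K := hg.trans (Nat.le_self_pow (by omega) g)
        rw [e3]
        calc N + t + 1 ≤ 2 * g ^ ((E + 1) * K) := by omega
          _ ≤ _ := Nat.mul_le_mul_right _ e4
      calc member h j (N + t) ≤ (N + t + 1) ^ 5 := h2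
        _ ≤ (g ^ ((E + 2) * K)) ^ 5 := Nat.pow_le_pow_left h3 5
        _ = g ^ (5 * (E + 2) * K) := by rw [← pow_mul]; congr 1; ring
        _ ≤ _ := Nat.pow_le_pow_right hg1 (by nlinarith)) A hA
  have h2 : rootDensity (fun n => ∏ j, (X ^ 5 + Polynomial.C ((h : ℤ) + ((![0, 2, 6, 8] : Fin 4 → ℕ) j : ℤ))).eval (n : ℤ)) (g ^ K) = V h (g ^ K) := by
    unfold V
    exact density_fam (fun j => X ^ 5 + Polynomial.C ((h : ℤ) + ((![0, 2, 6, 8] : Fin 4 → ℕ) j : ℤ))) (fun j n => member h j n) (fun j n => by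
      rw [eval_add, eval_pow, eval_X, eval_C]
      unfold member
      push_cast
      ring) _
  rw [h2] at h1
  exact h1

end Pool.Agent.Results.MP_c03ca8_nt.SameDistanceFromFifthPowers
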