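import Pool.Agent.Q48.RD.Ends

/-!
# Two almost prime quadruplets between consecutive fifth powers, at symmetric positions with restricted digits

For a large `n` let `b n` be the largest integer below `(n + 1) ^ 5` such that `n ^ 5 + b n` is divisible by `8!`. We consider the two
quadruplets `n ^ 5 + m + h` and `b n - m - h`, with `h` in `{0, 2, 6, 8}`, which are disjoint and between `n ^ 5` and `(n + 1) ^ 5` for
`1 ≤ m`, `n ^ 5 + 2 (m + 8) < b n`. (The second one is again of the form `l`, `l + 2`, `l + 6`, `l + 8`.)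

Let `g ≥ 2` be a base and `K` a large number of digits. For every `i < K` let `A i` be an arbitrary set of digits, such that the number
`|A 0| ⋯ |A (K - 1)|` of the integers `t < g ^ K` whose `i`-th digit belongs to `A i` for all `i < K` is at least `exp (- c K) g ^ K`
(`Rich`). Let `n` and `m₀ ≥ 1` be arbitrary with `(n + 1) ^ 5 ≤ g ^ (E K)` and `n ^ 5 + 2 (m₀ + g ^ K + 8) ≤ b n`, so that the length
`g ^ K` of the interval of the `m = m₀ + t` may be an arbitrarily small power of `n`.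

The number of the `m = m₀ + t` with these `t` for which all eight numbers have at most `r` prime factors, all larger than
`g ^ (K / r)`, is at least `κ V |A 0| ⋯ |A (K - 1)|`, and also at least `κ |A 0| ⋯ |A (K - 1)| / K ^ 8`, unless there is an obvious
obstruction (no digit `d` in `A 0` such that the eight numbers for `m₀ + d` are prime to `g`); the number of the `m = m₀ + t` with these
`t` for which both quadruplets consist of primes is at most `C V |A 0| ⋯ |A (K - 1)|`. Here `V` is the product of `1 - ν (p) / p` over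
the primes `p ≤ g ^ K`, where `ν (p)` is the number of the `m` modulo `p` such that `p` divides one of the eight numbers, the expected
order. The constants do not depend on `n`, `m₀` and the sets `A i`.
-/

set_option autoImplicit false

namespace Pool.Agent.Results.MP_c03ca8_nt.TwoAlmostPrimeQuadruplets

open Filter Finset
open Pool.Agent.Q315.RD Pool.Agent.Q48.RD

/-- The largest integer below `(n + 1) ^ 5` for which the sum with `n ^ 5` is divisible by `8! = 40320`. -/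
def b (n : ℕ) : ℕ := (n + 1) ^ 5 - 1 - (n ^ 5 + ((n + 1) ^ 5 - 1)) % 40320

/-- All the numbers `n ^ 5 + m + h` and `b n - (m + h)`, `h` in `{0, 2, 6, 8}`, have the property `Q`. -/
def TwoQuadruplets (n : ℕ) (Q : ℕ → Prop) (m : ℕ) : Prop :=
  (Q (n ^ 5 + m) ∧ Q (n ^ 5 + m + 2) ∧ Q (n ^ 5 + m + 6) ∧ Q (n ^ 5 + m + 8)) ∧
    Q (b n - (m + 8)) ∧ Q (b n - (m + 6)) ∧ Q (b n - (m + 2)) ∧ Q (b n - m)

/-- The product of `1 - ν (p) / p` over the primes `p ≤ y`, `ν (p)` the number of the zeros modulo `p` of the product of the eight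
polynomials `n ^ 5 + h + X`, `b n - h - X`, `h` in `{0, 2, 6, 8}`. -/
noncomputable def V (n y : ℕ) : ℝ := endsV ![0, 2, 6, 8] (n ^ 5) (b n) y

lemma quad_iff (n : ℕ) (Q : ℕ → Prop) (m : ℕ) : AtEnds ![0, 2, 6, 8] (n ^ 5) (b n) Q m ↔ TwoQuadruplets n Q m := by
  unfold AtEnds TwoQuadruplets
  constructor
  · intro h
    exact ⟨⟨(h 0).1, (h 1).1, (h 2).1, (h 3).1⟩, (h 3).2, (h 2).2, (h 1).2, (h 0).2⟩
  · rintro ⟨⟨h1, h2, h3, h4⟩, h5, h6, h7, h8⟩ j
    fin_cases j
    · exact ⟨h1, h8⟩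
    · exact ⟨h2, h7⟩
    · exact ⟨h3, h6⟩
    · exact ⟨h4, h5⟩

lemma b_sum (n : ℕ) (hn : 9 ≤ n) : (2 * 4).factorial ∣ n ^ 5 + b n := by
  have h1 : 40320 ≤ n ^ 5 := by
    calc 40320 ≤ 9 ^ 5 := by norm_num
      _ ≤ n ^ 5 := Nat.pow_le_pow_left hn 5
  have h2 : n ^ 5 ≤ (n + 1) ^ 5 := Nat.pow_le_pow_left (Nat.le_succ n) 5
  have h3 : (2 * 4).factorial = 40320 := by decide
  rw [h3]
  unfold b
  generalize (n + 1) ^ 5 = y at h2 ⊢
  generalize n ^ 5 = x at h1 h2 ⊢
  omega

lemma adm (n : ℕ) (hn : 9 ≤ n) : AdmZ (endsA 4) (endsB ![0, 2, 6, 8] (n ^ 5) (b n)) := by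
  refine ends_adm_sym _ _ _ (b_sum n hn) fun p hp => ?_
  rcases Nat.lt_or_ge p 5 with h5 | h5
  · have h2 := hp.two_le
    have h3 : p = 2 ∨ p = 3 := by
      by_contra hcon
      have : p = 4 := by omega
      subst this
      revert hp
      norm_num
    rcases h3 with rfl | rfl
    · exact ⟨1, fun j => by fin_cases j <;> norm_num⟩
    · exact ⟨2, fun j => by fin_cases j <;> norm_num⟩
  · obtain ⟨m, hm⟩ := adm_big (fun _ : Fin 4 => 1) (![0, 2, 6, 8] : Fin 4 → ℕ) hp (by omega)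
      (fun _ h => hp.one_lt.ne' (Nat.dvd_one.1 h))
    exact ⟨m, fun j => by simpa using hm j⟩

/-- **Two almost prime quadruplets between consecutive fifth powers, at symmetric positions with restricted digits.** -/
theorem result (E : ℕ) :
    ∃ c : ℝ, 0 < c ∧ ∃ r₀ : ℕ, 2 ≤ r₀ ∧ ∀ r : ℕ, r₀ ≤ r → ∀ g : ℕ, 2 ≤ g → ∃ κ C : ℝ, 0 < κ ∧ 0 < C ∧
      ∀ᶠ K : ℕ in atTop, ∀ n m₀ : ℕ, (n + 1) ^ 5 ≤ g ^ (E * K) → 1 ≤ m₀ → n ^ 5 + 2 * (m₀ + g ^ K + 8) ≤ b n →
        ∀ A : ℕ → Finset ℕ, Rich c g K A →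
          ((∃ d ∈ A 0, TwoQuadruplets n (fun l => l.Coprime g) (m₀ + d)) →
            κ * V n (g ^ K) * choices K A ≤ count g K A (fun t => TwoQuadruplets n (AlmostPrime (g ^ K) r) (m₀ + t)) ∧
            κ * choices K A / (K : ℝ) ^ 8 ≤ count g K A (fun t => TwoQuadruplets n (AlmostPrime (g ^ K) r) (m₀ + t))) ∧
          (count g K A (fun t => TwoQuadruplets n Nat.Prime (m₀ + t)) : ℝ) ≤ C * V n (g ^ K) * choices K A := by
  obtain ⟨c, hc, r₀, hr₀, h⟩ := ends ![0, 2, 6, 8] E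
  refine ⟨c, hc, r₀, hr₀, fun r hr g hg => ?_⟩
  obtain ⟨κ, C, hκ, hC, h1⟩ := h r hr g hg
  refine ⟨κ, C, hκ, hC, ?_⟩
  filter_upwards [h1, eventually_ge_atTop 20] with K hK hK1
  intro n m₀ hnE _ hm A hA
  have hb : b n ≤ (n + 1) ^ 5 := by
    unfold b
    omega
  have hn : 9 ≤ n := by
    by_contra hcon
    push Not at hcon
    have h3 : (n + 1) ^ 5 ≤ 9 ^ 5 := Nat.pow_le_pow_left (by omega) 5
    have h5 : 2 ^ 20 ≤ g ^ K := (Nat.pow_le_pow_left hg 20).trans (Nat.pow_le_pow_right (by omega) hK1)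
    omega
  have h2 := hK (n ^ 5) (b n) m₀ (hb.trans hnE) (fun j => by
    have : (![0, 2, 6, 8] : Fin 4 → ℕ) j ≤ 8 := by fin_cases j <;> simp
    omega) (adm n hn) A hA
  simp only [quad_iff] at h2
  exact h2

end Pool.Agent.Results.MP_c03ca8_nt.TwoAlmostPrimeQuadruplets
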